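import Pool.Agent.R604.IP.Stm

set_option autoImplicit false
open scoped Classical
open Finset

namespace Pool.Agent.R372.IP.BOX

open Pool.Agent.R604.IP

section
variable {α : Type} [Fintype α]

/-- pairs all of whose mixtures are in `A` -/
noncomputable def good {h : ℕ} (A : Finset (Fin h → α)) : Finset ((Fin h → α) × (Fin h → α)) :=
  univ.filter (fun z => ∀ σ, mix σ z.1 z.2 ∈ A)

/-- the intersection of two slices -/
noncomputable def B {h : ℕ} (A : Finset (Fin (h + 1) → α)) (a b : α) : Finset (Fin h → α) :=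
  univ.filter (fun t => (Fin.cons a t : Fin (h + 1) → α) ∈ A ∧
    (Fin.cons b t : Fin (h + 1) → α) ∈ A)

theorem good_sum {h : ℕ} (A : Finset (Fin (h + 1) → α)) :
    ∑ x : α × α, (good (B A x.1 x.2)).card ≤ (good A).card := by
  rw [← Finset.card_sigma univ (fun x : α × α => good (B A x.1 x.2))]
  apply Finset.card_le_card_of_injOn (fun w : (Σ _x : α × α, (Fin h → α) × (Fin h → α)) =>
    ((Fin.cons w.1.1 w.2.1 : Fin (h + 1) → α), (Fin.cons w.1.2 w.2.2 : Fin (h + 1) → α)))
  · rintro ⟨⟨a, b⟩, s, t⟩ hw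
    rw [Finset.mem_coe, Finset.mem_sigma] at hw
    have h1 := (mem_filter.1 hw.2).2
    rw [Finset.mem_coe]
    unfold good
    rw [mem_filter]
    refine ⟨mem_univ _, fun σ => ?_⟩
    have h2 := (mem_filter.1 (h1 (fun i => σ i.succ))).2
    have e : mix σ (Fin.cons a s : Fin (h + 1) → α) (Fin.cons b t) =
        Fin.cons (if σ 0 then a else b) (mix (fun i => σ i.succ) s t) := by
      funext i
      refine Fin.cases ?_ (fun i => ?_) i
      · simp [mix]
      · simp [mix]
    show mix σ (Fin.cons a s : Fin (h + 1) → α) (Fin.cons b t) ∈ A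
    rw [e]
    by_cases h3 : σ 0 = true
    · rw [if_pos h3]; exact h2.1
    · rw [if_neg h3]; exact h2.2
  · rintro ⟨⟨a, b⟩, s, t⟩ _ ⟨⟨a', b'⟩, s', t'⟩ _ hw
    have h1 : (Fin.cons a s : Fin (h + 1) → α) = Fin.cons a' s' ∧
        (Fin.cons b t : Fin (h + 1) → α) = Fin.cons b' t' := by
      simpa using hw
    obtain ⟨e1, e2⟩ := Fin.cons_inj.1 h1.1
    obtain ⟨e3, e4⟩ := Fin.cons_inj.1 h1.2
    subst e1 e2 e3 e4
    rfl

theorem slices {h : ℕ} (A : Finset (Fin (h + 1) → α)) :
    (A.card : ℝ) ^ 2 ≤ (Fintype.card α : ℝ) ^ h * ∑ x : α × α, ((B A x.1 x.2).card : ℝ) := by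
  let ind : α → (Fin h → α) → ℝ := fun a t => if (Fin.cons a t : Fin (h + 1) → α) ∈ A then 1 else 0
  have hA : (A.card : ℝ) = ∑ t : Fin h → α, ∑ a, ind a t := by
    rw [Finset.sum_comm, ← Finset.sum_product' (f := fun a t => ind a t), univ_product_univ]
    have h1 : (A.card : ℝ) = ∑ x : Fin (h + 1) → α, (if x ∈ A then 1 else 0) := by
      rw [← Finset.sum_filter, Finset.sum_const, nsmul_eq_mul, mul_one]
      congr 2
      ext; simp
    rw [h1, ← Equiv.sum_comp (Fin.consEquiv (fun _ : Fin (h + 1) => α))]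
    rfl
  have hB : ∑ x : α × α, ((B A x.1 x.2).card : ℝ) = ∑ t : Fin h → α, (∑ a, ind a t) ^ 2 := by
    have h1 : ∀ x : α × α, ((B A x.1 x.2).card : ℝ) = ∑ t : Fin h → α, ind x.1 t * ind x.2 t := by
      intro x
      unfold B
      rw [Finset.card_filter, Nat.cast_sum]
      apply Finset.sum_congr rfl
      intro t _
      simp only [ind]
      by_cases h2 : (Fin.cons x.1 t : Fin (h + 1) → α) ∈ A <;>
        by_cases h3 : (Fin.cons x.2 t : Fin (h + 1) → α) ∈ A <;> simp [h2, h3]
    rw [Finset.sum_congr rfl (fun x _ => h1 x), Finset.sum_comm]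
    apply Finset.sum_congr rfl
    intro t _
    rw [sq, Finset.sum_mul_sum, ← univ_product_univ, Finset.sum_product]
  rw [hA, hB]
  have h1 := sq_sum_le_card_mul_sum_sq (s := (univ : Finset (Fin h → α)))
    (f := fun t => ∑ a, ind a t)
  refine le_trans h1 (le_of_eq ?_)
  rw [Finset.card_univ, Fintype.card_fun, Fintype.card_fin]
  push_cast
  rfl

theorem claim [Nonempty α] (h : ℕ) : ∀ (A : Finset (Fin h → α)) (p : ℝ), 0 ≤ p →
    p * (Fintype.card α : ℝ) ^ h ≤ (A.card : ℝ) →
    p ^ (2 ^ h) * (Fintype.card α : ℝ) ^ (2 * h) ≤ ((good A).card : ℝ) := by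
  have hN : (0 : ℝ) < Fintype.card α := by exact_mod_cast Fintype.card_pos
  induction h with
  | zero =>
    intro A p hp hA
    have h1 : A.card ≤ (good A).card := by
      apply Finset.card_le_card_of_injOn (fun x => (x, x))
      · intro x hx
        rw [Finset.mem_coe] at hx ⊢
        unfold good
        rw [mem_filter]
        refine ⟨mem_univ _, fun σ => ?_⟩
        have : mix σ x x = x := by
          funext i; simp [mix]
        show mix σ x x ∈ A
        rw [this]; exact hx
      · intro x _ y _ hxy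
        exact (Prod.ext_iff.1 hxy).1
    have h2 : (A.card : ℝ) ≤ ((good A).card : ℝ) := by exact_mod_cast h1
    simp only [pow_zero, pow_one, mul_one, mul_zero] at hA ⊢
    linarith
  | succ h ih =>
    intro A p hp hA
    set N : ℝ := (Fintype.card α : ℝ) with hNdef
    let q : α × α → ℝ := fun x => ((B A x.1 x.2).card : ℝ) / N ^ h
    have hq0 : ∀ x, 0 ≤ q x := fun x => by positivity
    have h1 : ∀ x : α × α, q x ^ (2 ^ h) * N ^ (2 * h) ≤ ((good (B A x.1 x.2)).card : ℝ) := by
      intro x
      apply ih _ _ (hq0 x)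
      simp only [q]
      rw [div_mul_cancel₀ _ (by positivity)]
    have h2 : (∑ x : α × α, q x ^ (2 ^ h)) * N ^ (2 * h) ≤ ((good A).card : ℝ) := by
      rw [Finset.sum_mul]
      refine le_trans (Finset.sum_le_sum fun x _ => h1 x) ?_
      exact_mod_cast good_sum A
    have hcard : ∑ _x : α × α, (1 / N ^ 2 : ℝ) = 1 := by
      rw [Finset.sum_const, Finset.card_univ, Fintype.card_prod, nsmul_eq_mul]
      push_cast
      field_simp
      exact hNdef ▸ rfl
    have h3 := Real.pow_arith_mean_le_arith_mean_pow (univ : Finset (α × α))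
      (fun _ => 1 / N ^ 2) q (fun _ _ => by positivity) hcard (fun x _ => hq0 x) (2 ^ h)
    rw [← Finset.mul_sum, ← Finset.mul_sum] at h3
    have h4 : p ^ 2 ≤ 1 / N ^ 2 * ∑ x : α × α, q x := by
      have h5 := slices A
      have h6 : (p * N ^ (h + 1)) ^ 2 ≤ (A.card : ℝ) ^ 2 :=
        pow_le_pow_left₀ (by positivity) hA 2
      have h7 : ∑ x : α × α, q x = (∑ x : α × α, ((B A x.1 x.2).card : ℝ)) / N ^ h := by
        rw [Finset.sum_div]
      have h8 := le_trans h6 h5
      rw [h7]
      have h9 : p ^ 2 * (N ^ 2 * N ^ h) ≤ ∑ x : α × α, ((B A x.1 x.2).card : ℝ) := by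
        have h10 : 0 < N ^ h := by positivity
        have h11 : N ^ h * (p ^ 2 * (N ^ 2 * N ^ h)) ≤
            N ^ h * ∑ x : α × α, ((B A x.1 x.2).card : ℝ) := by
          refine le_trans (le_of_eq ?_) h8
          ring
        exact le_of_mul_le_mul_left h11 h10
      rw [one_div, ← mul_div_assoc, le_div_iff₀ (by positivity), ← div_eq_inv_mul,
        le_div_iff₀ (by positivity)]
      calc p ^ 2 * N ^ h * N ^ 2 = p ^ 2 * (N ^ 2 * N ^ h) := by ring
        _ ≤ _ := h9
    have h5 : (p ^ 2) ^ (2 ^ h) ≤ 1 / N ^ 2 * ∑ x : α × α, q x ^ (2 ^ h) :=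
      le_trans (pow_le_pow_left₀ (by positivity) h4 _) h3
    have h6 : N ^ 2 * (p ^ 2) ^ (2 ^ h) ≤ ∑ x : α × α, q x ^ (2 ^ h) := by
      have := mul_le_mul_of_nonneg_left h5 (by positivity : 0 ≤ N ^ 2)
      rw [← mul_assoc, mul_one_div_cancel (by positivity), one_mul] at this
      exact this
    calc p ^ (2 ^ (h + 1)) * N ^ (2 * (h + 1))
        = (N ^ 2 * (p ^ 2) ^ (2 ^ h)) * N ^ (2 * h) := by
          rw [← pow_mul, pow_succ 2 h, mul_comm (2 ^ h) 2]
          ring
      _ ≤ (∑ x : α × α, q x ^ (2 ^ h)) * N ^ (2 * h) :=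
          mul_le_mul_of_nonneg_right h6 (by positivity)
      _ ≤ _ := h2

end

theorem t_box : S_BOX := by
  intro ι α _ _ _ A p hp hA
  let e : ι ≃ Fin (Fintype.card ι) := Fintype.equivFin ι
  let A' : Finset (Fin (Fintype.card ι) → α) := univ.filter (fun y => (fun i => y (e i)) ∈ A)
  have h1 : A.card ≤ A'.card := by
    apply Finset.card_le_card_of_injOn (fun x => fun j => x (e.symm j))
    · intro x hx
      rw [Finset.mem_coe] at hx ⊢
      simp only [A']
      rw [mem_filter]
      refine ⟨mem_univ _, ?_⟩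
      simpa using hx
    · intro x _ y _ hxy
      funext i
      have := congrFun hxy (e i)
      simpa using this
  have h2 : p * (Fintype.card α : ℝ) ^ Fintype.card ι ≤ (A'.card : ℝ) :=
    le_trans hA (by exact_mod_cast h1)
  refine le_trans (claim _ A' p hp h2) ?_
  have h3 : (good A').card ≤
      (univ.filter (fun z : (ι → α) × (ι → α) => ∀ σ, mix σ z.1 z.2 ∈ A)).card := by
    apply Finset.card_le_card_of_injOn (fun z => (fun i => z.1 (e i), fun i => z.2 (e i)))
    · intro z hz
      rw [Finset.mem_coe] at hz ⊢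
      unfold good at hz
      rw [mem_filter] at hz ⊢
      refine ⟨mem_univ _, fun σ => ?_⟩
      have h4 := (mem_filter.1 (hz.2 (fun j => σ (e.symm j)))).2
      have h5 : (fun i => mix (fun j => σ (e.symm j)) z.1 z.2 (e i)) =
          mix σ (fun i => z.1 (e i)) (fun i => z.2 (e i)) := by
        funext i
        simp [mix]
      rw [h5] at h4
      exact h4
    · intro z _ w _ hzw
      have h4 := Prod.ext_iff.1 hzw
      apply Prod.ext
      · funext j
        have := congrFun h4.1 (e.symm j)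
        simpa using this
      · funext j
        have := congrFun h4.2 (e.symm j)
        simpa using this
  exact_mod_cast h3

end Pool.Agent.R372.IP.BOX
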