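import Pool.Agent.R604.IP.Stm

set_option autoImplicit false
open scoped Classical
open Finset

namespace Pool.Agent.R372.IP.CNT

open Pool.Agent.R604.IP

theorem slice {β γ : Type} [Fintype β] [Fintype γ] (P : β → γ → Prop) :
    ∑ b, (univ.filter (fun c => P b c)).card =
      (univ.filter (fun x : β × γ => P x.1 x.2)).card := by
  simp only [Finset.card_filter]
  rw [← Finset.univ_product_univ, Finset.sum_product]

theorem q4_swap {n : ℕ} (F : Finset (Finset (Fin n))) (a b c d : Fin n) :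
    q4 F a b c d ↔ q4 F b a c d := by
  unfold q4
  constructor
  · rintro ⟨h1, h2, h3, h4, h5, h6, S, hS, ha, hb, hc, hd⟩
    exact ⟨h1.symm, h4, h5, h2, h3, h6, S, hS, hb, ha, hc, hd⟩
  · rintro ⟨h1, h2, h3, h4, h5, h6, S, hS, ha, hb, hc, hd⟩
    exact ⟨h1.symm, h4, h5, h2, h3, h6, S, hS, hb, ha, hc, hd⟩

theorem q4_mid {n : ℕ} (F : Finset (Finset (Fin n))) (a b c d : Fin n) :
    q4 F a b c d ↔ q4 F a c b d := by
  unfold q4
  constructor
  · rintro ⟨h1, h2, h3, h4, h5, h6, S, hS, ha, hb, hc, hd⟩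
    exact ⟨h2, h1, h3, h4.symm, h6, h5, S, hS, ha, hc, hb, hd⟩
  · rintro ⟨h1, h2, h3, h4, h5, h6, S, hS, ha, hb, hc, hd⟩
    exact ⟨h2, h1, h3, h4.symm, h6, h5, S, hS, ha, hc, hb, hd⟩

theorem pairs3 {n : ℕ} (F : Finset (Finset (Fin n))) (hF : ∀ S ∈ F, S.card = 5) (a : Fin n) :
    ∑ b, cg F a b ≤ ∑ S ∈ F, (if a ∈ S then 12 else 0) := by
  have h1 : ∑ b, cg F a b = (univ.filter (fun x : Fin n × Fin n => q3 F a x.1 x.2)).card :=
    slice (fun b c => q3 F a b c)
  rw [h1]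
  have h2 : univ.filter (fun x : Fin n × Fin n => q3 F a x.1 x.2) ⊆
      (F.filter (fun S => a ∈ S)).biUnion (fun S => (S.erase a).offDiag) := by
    intro x hx
    rw [mem_filter] at hx
    obtain ⟨_, h1, h2, h3, S, hS, ha, hb, hc⟩ := hx
    rw [mem_biUnion]
    refine ⟨S, by rw [mem_filter]; exact ⟨hS, ha⟩, ?_⟩
    rw [mem_offDiag]
    exact ⟨mem_erase.2 ⟨h1.symm, hb⟩, mem_erase.2 ⟨h2.symm, hc⟩, h3⟩
  refine le_trans (Finset.card_le_card h2) (le_trans Finset.card_biUnion_le ?_)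
  rw [← Finset.sum_filter]
  apply Finset.sum_le_sum
  intro S hS
  rw [mem_filter] at hS
  rw [offDiag_card, card_erase_of_mem hS.2, hF S hS.1]

theorem quads {n : ℕ} (F : Finset (Finset (Fin n))) (hF : ∀ S ∈ F, S.card = 5) (u a : Fin n) :
    D2 F u a ≤ ∑ S ∈ F, (if (u, a) ∈ S.offDiag then 6 else 0) := by
  unfold D2
  have h2 : univ.filter (fun x : Fin n × Fin n => q4 F u a x.1 x.2) ⊆
      (F.filter (fun S => (u, a) ∈ S.offDiag)).biUnion
        (fun S => ((S.erase u).erase a).offDiag) := by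
    intro x hx
    rw [mem_filter] at hx
    obtain ⟨_, h1, h2, h3, h4, h5, h6, S, hS, ha, hb, hc, hd⟩ := hx
    rw [mem_biUnion]
    refine ⟨S, by rw [mem_filter, mem_offDiag]; exact ⟨hS, ha, hb, h1⟩, ?_⟩
    rw [mem_offDiag]
    exact ⟨mem_erase.2 ⟨h4.symm, mem_erase.2 ⟨h2.symm, hc⟩⟩,
      mem_erase.2 ⟨h5.symm, mem_erase.2 ⟨h3.symm, hd⟩⟩, h6⟩
  refine le_trans (Finset.card_le_card h2) (le_trans Finset.card_biUnion_le ?_)
  rw [← Finset.sum_filter]
  apply Finset.sum_le_sum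
  intro S hS
  rw [mem_filter, mem_offDiag] at hS
  obtain ⟨hS1, hu, ha, hne⟩ := hS
  have h3 : ((S.erase u).erase a).card = 3 := by
    rw [card_erase_of_mem (mem_erase.2 ⟨hne.symm, ha⟩), card_erase_of_mem hu, hF S hS1]
  rw [offDiag_card, h3]

theorem t_cnt : S_CNT := by
  intro n F hFam
  obtain ⟨hF, hc⟩ := hFam
  have e2 : ∀ v, ∑ z, D2 F v z = W3 F v := fun v =>
    slice (fun a (x : Fin n × Fin n) => q4 F v a x.1 x.2)
  refine ⟨?_, e2, ?_, ?_, ?_, ?_⟩
  · have h1 : ∑ v, W3 F v = ∑ v, ∑ z, D2 F v z := by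
      apply Finset.sum_congr rfl
      intro v _
      rw [e2]
    rw [h1]
    have h2 : ∑ v, ∑ z, D2 F v z ≤ ∑ v, ∑ z, ∑ S ∈ F, (if (v, z) ∈ S.offDiag then 6 else 0) :=
      Finset.sum_le_sum fun v _ => Finset.sum_le_sum fun z _ => quads F hF v z
    have h3 : ∑ v, ∑ z, ∑ S ∈ F, (if (v, z) ∈ S.offDiag then 6 else 0) = 120 * F.card := by
      rw [← Finset.sum_product', Finset.sum_comm]
      have h4 : ∀ S ∈ F, ∑ x ∈ (univ ×ˢ univ : Finset (Fin n × Fin n)),
          (if (x.1, x.2) ∈ S.offDiag then 6 else 0) = 120 := by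
        intro S hS
        rw [← Finset.sum_filter, Finset.sum_const, smul_eq_mul]
        have h5 : ((univ ×ˢ univ : Finset (Fin n × Fin n)).filter
            (fun x => (x.1, x.2) ∈ S.offDiag)) = S.offDiag := by
          ext x
          simp
        rw [h5, offDiag_card, hF S hS]
      rw [Finset.sum_congr rfl h4, Finset.sum_const, smul_eq_mul, mul_comm]
    rw [h3] at h2
    have : 17 * (120 * F.card) ≤ 120 * n ^ 2 := by nlinarith
    nlinarith [Nat.zero_le (n ^ 2)]
  · intro v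
    have h1 : ∑ z, D2 F z v = (univ.filter (fun x : Fin n × (Fin n × Fin n) =>
        q4 F x.1 v x.2.1 x.2.2)).card :=
      slice (fun z (x : Fin n × Fin n) => q4 F z v x.1 x.2)
    rw [h1]
    unfold W3
    congr 1
    apply Finset.filter_congr
    intro x _
    exact q4_swap F _ _ _ _
  · intro u v
    have h1 : ∑ a, K1 F u a v = (univ.filter (fun x : Fin n × Fin n => q4 F u x.1 v x.2)).card :=
      slice (fun a z => q4 F u a v z)
    rw [h1]
    unfold D2
    congr 1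
    apply Finset.filter_congr
    intro x _
    exact q4_mid F _ _ _ _
  · have h2 : ∑ a, ∑ b, cg F a b ≤ ∑ a, ∑ S ∈ F, (if a ∈ S then 12 else 0) :=
      Finset.sum_le_sum fun a _ => pairs3 F hF a
    have h3 : ∑ a, ∑ S ∈ F, (if a ∈ S then 12 else 0) = 60 * F.card := by
      rw [Finset.sum_comm]
      have h4 : ∀ S ∈ F, ∑ a, (if a ∈ S then 12 else 0) = 60 := by
        intro S hS
        rw [← Finset.sum_filter, Finset.sum_const, smul_eq_mul]
        have h5 : univ.filter (fun a => a ∈ S) = S := by ext; simp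
        rw [h5, hF S hS]
      rw [Finset.sum_congr rfl h4, Finset.sum_const, smul_eq_mul, mul_comm]
    rw [h3] at h2
    have : 17 * (60 * F.card) ≤ 60 * n ^ 2 := by nlinarith
    nlinarith [Nat.zero_le (n ^ 2)]
  · intro u
    have h2 := pairs3 F hF u
    have h3 : ∑ S ∈ F, (if u ∈ S then 12 else 0) ≤ ∑ _S ∈ F, 12 := by
      apply Finset.sum_le_sum
      intro S _
      split_ifs <;> norm_num
    rw [Finset.sum_const, smul_eq_mul] at h3
    have := le_trans h2 h3
    nlinarith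

end Pool.Agent.R372.IP.CNT
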