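import Pool.Agent.R604.IP.Stm

set_option autoImplicit false
open scoped Classical
open Finset

namespace Pool.Agent.R372.IP.COL

open Pool.Agent.R604.IP

/-- sets of functions determined by the values off `i` -/
theorem inj {n : ℕ} {ι : Type} [Fintype ι] (P : Finset (ι → Fin n)) (i : ι)
    (h : ∀ x ∈ P, ∀ y ∈ P, (∀ k, k ≠ i → x k = y k) → x = y) :
    n * P.card ≤ n ^ Fintype.card ι := by
  have h1 : (P ×ˢ (univ : Finset (Fin n))).card ≤ (univ : Finset (ι → Fin n)).card := by
    apply Finset.card_le_card_of_injOn (fun z => Function.update z.1 i z.2)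
    · intro z _
      exact Finset.mem_coe.2 (mem_univ _)
    · rintro ⟨x, a⟩ hx ⟨y, b⟩ hy hxy
      have hx' := (Finset.mem_product.1 (Finset.mem_coe.1 hx)).1
      have hy' := (Finset.mem_product.1 (Finset.mem_coe.1 hy)).1
      have hxy' : Function.update x i a = Function.update y i b := hxy
      have e1 : a = b := by
        have := congrFun hxy' i
        rwa [Function.update_self, Function.update_self] at this
      have e2 : x = y := by
        apply h x hx' y hy'
        intro k hk
        have := congrFun hxy' k
        rwa [Function.update_of_ne hk, Function.update_of_ne hk] at this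
      rw [e1, e2]
  rw [Finset.card_product, Finset.card_univ, Finset.card_univ, Fintype.card_fun,
    Fintype.card_fin] at h1
  rw [mul_comm]
  exact h1

theorem t_col : S_COL := by
  intro n _ U
  have hA : ∀ (i : U) (a : Fin n), n * (univ.filter (fun x : U → Fin n => x i = a)).card ≤
      n ^ U.card := by
    intro i a
    have := inj (univ.filter (fun x : U → Fin n => x i = a)) i (by
      intro x hx y hy hxy
      rw [mem_filter] at hx hy
      funext k
      by_cases hk : k = i
      · rw [hk, hx.2, hy.2]
      · exact hxy k hk)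
    rwa [Fintype.card_coe] at this
  have hB : ∀ (i j : U), i ≠ j → n * (univ.filter (fun x : U → Fin n => x i = x j)).card ≤
      n ^ U.card := by
    intro i j hij
    have := inj (univ.filter (fun x : U → Fin n => x i = x j)) i (by
      intro x hx y hy hxy
      rw [mem_filter] at hx hy
      funext k
      by_cases hk : k = i
      · rw [hk, hx.2, hy.2]
        exact hxy j (Ne.symm hij)
      · exact hxy k hk)
    rwa [Fintype.card_coe] at this
  have hsub : univ.filter (fun x : U → Fin n => (∃ i, x i ∈ U) ∨ ¬ Function.Injective x) ⊆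
      ((univ ×ˢ U : Finset (U × Fin n)).biUnion
        fun z => univ.filter (fun x : U → Fin n => x z.1 = z.2)) ∪
      ((univ.filter (fun z : U × U => z.1 ≠ z.2)).biUnion
        fun z => univ.filter (fun x : U → Fin n => x z.1 = x z.2)) := by
    intro x hx
    rw [mem_filter] at hx
    rw [mem_union, mem_biUnion, mem_biUnion]
    rcases hx.2 with ⟨i, hi⟩ | hinj
    · left
      exact ⟨(i, x i), by simp [hi], by simp⟩
    · right
      rw [Function.Injective] at hinj
      push Not at hinj
      obtain ⟨i, j, hij, hne⟩ := hinj
      exact ⟨(i, j), by simp [hne], by simp [hij]⟩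
  have hc := le_trans (Finset.card_le_card hsub) (Finset.card_union_le _ _)
  have h1 : n * ((univ ×ˢ U : Finset (U × Fin n)).biUnion
        fun z => univ.filter (fun x : U → Fin n => x z.1 = z.2)).card ≤
      U.card ^ 2 * n ^ U.card := by
    calc _ ≤ n * ∑ z ∈ (univ ×ˢ U : Finset (U × Fin n)),
          (univ.filter (fun x : U → Fin n => x z.1 = z.2)).card :=
          Nat.mul_le_mul_left _ Finset.card_biUnion_le
      _ = ∑ z ∈ (univ ×ˢ U : Finset (U × Fin n)),
          n * (univ.filter (fun x : U → Fin n => x z.1 = z.2)).card := by rw [Finset.mul_sum]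
      _ ≤ ∑ z ∈ (univ ×ˢ U : Finset (U × Fin n)), n ^ U.card :=
          Finset.sum_le_sum fun z _ => hA z.1 z.2
      _ = U.card ^ 2 * n ^ U.card := by
          rw [Finset.sum_const, Finset.card_product, Finset.card_univ, Fintype.card_coe,
            smul_eq_mul, sq]
  have h2 : n * ((univ.filter (fun z : U × U => z.1 ≠ z.2)).biUnion
        fun z => univ.filter (fun x : U → Fin n => x z.1 = x z.2)).card ≤
      U.card ^ 2 * n ^ U.card := by
    calc _ ≤ n * ∑ z ∈ univ.filter (fun z : U × U => z.1 ≠ z.2),
          (univ.filter (fun x : U → Fin n => x z.1 = x z.2)).card :=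
          Nat.mul_le_mul_left _ Finset.card_biUnion_le
      _ = ∑ z ∈ univ.filter (fun z : U × U => z.1 ≠ z.2),
          n * (univ.filter (fun x : U → Fin n => x z.1 = x z.2)).card := by rw [Finset.mul_sum]
      _ ≤ ∑ z ∈ univ.filter (fun z : U × U => z.1 ≠ z.2), n ^ U.card :=
          Finset.sum_le_sum fun z hz => hB z.1 z.2 (mem_filter.1 hz).2
      _ ≤ U.card ^ 2 * n ^ U.card := by
          rw [Finset.sum_const, smul_eq_mul]
          apply Nat.mul_le_mul_right
          refine le_trans (Finset.card_le_univ _) ?_
          rw [Fintype.card_prod, Fintype.card_coe, sq]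
  have h3 : n * (univ.filter (fun x : U → Fin n =>
      (∃ i, x i ∈ U) ∨ ¬ Function.Injective x)).card ≤ 2 * U.card ^ 2 * n ^ U.card := by
    calc _ ≤ n * (_ + _) := Nat.mul_le_mul_left _ hc
      _ ≤ 2 * U.card ^ 2 * n ^ U.card := by
          rw [Nat.mul_add]
          have := Nat.add_le_add h1 h2
          refine le_trans this (le_of_eq ?_)
          ring
  exact_mod_cast h3

theorem t_dia : S_DIA := by
  intro n _ U
  have hA : ∀ (i : U), n * (univ.filter (fun z : (U → Fin n) × (U → Fin n) =>
      z.1 i = z.2 i)).card ≤ n ^ (2 * U.card) := by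
    intro i
    have h1 : ((univ.filter (fun z : (U → Fin n) × (U → Fin n) => z.1 i = z.2 i)) ×ˢ
        (univ : Finset (Fin n))).card ≤
        (univ : Finset ((U → Fin n) × (U → Fin n))).card := by
      apply Finset.card_le_card_of_injOn (fun z => (Function.update z.1.1 i z.2, z.1.2))
      · intro z _
        exact Finset.mem_coe.2 (mem_univ _)
      · rintro ⟨⟨x, x'⟩, a⟩ hx ⟨⟨y, y'⟩, b⟩ hy hxy
        have hx' := (mem_filter.1 (Finset.mem_product.1 (Finset.mem_coe.1 hx)).1).2
        have hy' := (mem_filter.1 (Finset.mem_product.1 (Finset.mem_coe.1 hy)).1).2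
        have hxy' : Function.update x i a = Function.update y i b ∧ x' = y' := by
          simpa using hxy
        obtain ⟨hxy1, rfl⟩ := hxy'
        have e1 : a = b := by
          have := congrFun hxy1 i
          rwa [Function.update_self, Function.update_self] at this
        have e2 : x = y := by
          funext k
          by_cases hk : k = i
          · rw [hk]
            exact hx'.trans hy'.symm
          · have := congrFun hxy1 k
            rwa [Function.update_of_ne hk, Function.update_of_ne hk] at this
        rw [e1, e2]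
    rw [Finset.card_product, Finset.card_univ, Finset.card_univ, Fintype.card_prod,
      Fintype.card_fun, Fintype.card_fin, Fintype.card_coe, ← pow_add] at h1
    rw [mul_comm, two_mul]
    exact h1
  have hsub : univ.filter (fun z : (U → Fin n) × (U → Fin n) => ∃ i, z.1 i = z.2 i) ⊆
      (univ : Finset U).biUnion
        fun i => univ.filter (fun z : (U → Fin n) × (U → Fin n) => z.1 i = z.2 i) := by
    intro x hx
    rw [mem_filter] at hx
    obtain ⟨i, hi⟩ := hx.2
    rw [mem_biUnion]
    exact ⟨i, mem_univ _, by rw [mem_filter]; exact ⟨mem_univ _, hi⟩⟩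
  have h3 : n * (univ.filter (fun z : (U → Fin n) × (U → Fin n) => ∃ i, z.1 i = z.2 i)).card ≤
      U.card * n ^ (2 * U.card) := by
    calc _ ≤ n * _ := Nat.mul_le_mul_left _ (Finset.card_le_card hsub)
      _ ≤ n * ∑ i : U, (univ.filter (fun z : (U → Fin n) × (U → Fin n) =>
          z.1 i = z.2 i)).card := Nat.mul_le_mul_left _ Finset.card_biUnion_le
      _ = ∑ i : U, n * (univ.filter (fun z : (U → Fin n) × (U → Fin n) =>
          z.1 i = z.2 i)).card := by rw [Finset.mul_sum]
      _ ≤ ∑ _i : U, n ^ (2 * U.card) := Finset.sum_le_sum fun i _ => hA i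
      _ = U.card * n ^ (2 * U.card) := by
          rw [Finset.sum_const, Finset.card_univ, Fintype.card_coe, smul_eq_mul]
  exact_mod_cast h3

end Pool.Agent.R372.IP.COL
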